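import Mathlib

open Finset

namespace Pool.Agent.Results.MP_04e67f_nt.RiseInfinite

/-- The abundancy `h(n) = σ(n)/n`. -/
noncomputable def h (n : ℕ) : ℝ := (∑ d ∈ n.divisors, (d : ℝ)) / n

/-- `H(n) = ∏_{p ∣ n} p/(p-1)`, the product over the distinct primes dividing `n`. -/
noncomputable def H (n : ℕ) : ℝ := ∏ p ∈ n.primeFactors, (p : ℝ) / ((p : ℝ) - 1)

/-- The scaled surplus `g(n) = (H(n) - 2) * n^(1/2)`. -/
noncomputable def g (n : ℕ) : ℝ := (H n - 2) * Real.sqrt n

/-- `n` is odd and non-deficient: `σ(n) ≥ 2n`. -/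
def OddNonDeficient (n : ℕ) : Prop := Odd n ∧ 2 * n ≤ ∑ d ∈ n.divisors, d

/-- The set `B_1` of odd non-deficient record setters for `g`. -/
def B1 : Set ℕ := {n | OddNonDeficient n ∧ ∀ k, OddNonDeficient k → k < n → g k < g n}

/-- The elements of `B_1` in increasing order (indexed from `0`). -/
noncomputable def b (j : ℕ) : ℕ := Nat.nth (fun n => n ∈ B1) j

theorem factor_ge_one {p : ℕ} (hp : p.Prime) : 1 ≤ (p : ℝ) / ((p : ℝ) - 1) := by
  have h1 : (2 : ℝ) ≤ p := by exact_mod_cast hp.two_le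
  rw [le_div_iff₀ (by linarith)]
  linarith

theorem factor_pos {p : ℕ} (hp : p.Prime) : 0 < (p : ℝ) / ((p : ℝ) - 1) :=
  lt_of_lt_of_le one_pos (factor_ge_one hp)

/-- `∏_{p ∈ s} (1 - 1/p^2) ≥ 1/2` for a finite set of integers `≥ 2`. -/
theorem prod_one_sub_sq (s : Finset ℕ) (hs : ∀ p ∈ s, 2 ≤ p) :
    (1 / 2 : ℝ) ≤ ∏ p ∈ s, (1 - 1 / (p : ℝ) ^ 2) := by
  -- telescoping product over `[2, N]`
  have tel : ∀ N : ℕ, 1 ≤ N → ∏ p ∈ Finset.Icc 2 N, (1 - 1 / (p : ℝ) ^ 2) = ((N : ℝ) + 1) / (2 * N) := by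
    intro N hN
    induction N, hN using Nat.le_induction with
    | base => norm_num
    | succ n hn ih =>
      rw [← Finset.insert_Icc_right_eq_Icc_add_one (by omega), Finset.prod_insert (by simp), ih]
      have hn' : (1 : ℝ) ≤ n := by exact_mod_cast hn
      push_cast
      field_simp
      ring
  set N := s.sup id + 1 with hN
  have hsub : s ⊆ Finset.Icc 2 N := by
    intro p hp
    rw [Finset.mem_Icc]
    refine ⟨hs p hp, ?_⟩
    have : p ≤ s.sup id := Finset.le_sup (f := id) hp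
    omega
  have hfac : ∀ p : ℕ, 2 ≤ p → 0 ≤ (1 - 1 / (p : ℝ) ^ 2) ∧ (1 - 1 / (p : ℝ) ^ 2) ≤ 1 := by
    intro p hp
    have hp' : (2 : ℝ) ≤ p := by exact_mod_cast hp
    have h1 : 0 < (p : ℝ) ^ 2 := by positivity
    constructor
    · rw [sub_nonneg, div_le_one h1]
      nlinarith
    · have : 0 ≤ 1 / (p : ℝ) ^ 2 := by positivity
      linarith
  have hle : ∏ p ∈ Finset.Icc 2 N, (1 - 1 / (p : ℝ) ^ 2) ≤ ∏ p ∈ s, (1 - 1 / (p : ℝ) ^ 2) := by
    rw [← Finset.prod_sdiff hsub]
    have h1 : ∏ p ∈ Finset.Icc 2 N \ s, (1 - 1 / (p : ℝ) ^ 2) ≤ 1 := by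
      apply Finset.prod_le_one
      · intro p hp
        exact (hfac p (by simp at hp; omega)).1
      · intro p hp
        exact (hfac p (by simp at hp; omega)).2
    have h2 : 0 ≤ ∏ p ∈ s, (1 - 1 / (p : ℝ) ^ 2) :=
      Finset.prod_nonneg (fun p hp => (hfac p (hs p hp)).1)
    nlinarith
  rw [tel N (by omega)] at hle
  refine le_trans ?_ hle
  have : (0 : ℝ) < N := by exact_mod_cast (by omega : 0 < N)
  rw [div_le_div_iff₀ (by norm_num) (by positivity)]
  nlinarith

/-- `∏_{p ∣ n} (1 + 1/p) ≤ σ(n)/n`. -/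
theorem prod_le_h (n : ℕ) (hn : n ≠ 0) :
    ∏ p ∈ n.primeFactors, (1 + 1 / (p : ℝ)) ≤ h n := by
  induction n using Nat.recOnPosPrimePosCoprime with
  | zero => exact absurd rfl hn
  | one => simp [h]
  | prime_pow p k hp hk =>
    rw [Nat.primeFactors_prime_pow hk.ne' hp, Finset.prod_singleton]
    unfold h
    have hp0 : (0 : ℝ) < p := by exact_mod_cast hp.pos
    have : ({p ^ k, p ^ (k - 1)} : Finset ℕ) ⊆ (p ^ k).divisors := by
      intro d hd
      simp only [Finset.mem_insert, Finset.mem_singleton] at hd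
      rw [Nat.mem_divisors]
      refine ⟨?_, by positivity⟩
      rcases hd with rfl | rfl
      · exact dvd_rfl
      · exact pow_dvd_pow p (by omega)
    have hne : p ^ k ≠ p ^ (k - 1) := by
      intro he
      have := Nat.pow_right_injective hp.two_le he
      omega
    have h1 := Finset.sum_le_sum_of_subset_of_nonneg (f := fun d : ℕ => (d : ℝ)) this
      (fun i _ _ => by positivity)
    rw [Finset.sum_pair hne] at h1
    rw [le_div_iff₀ (by positivity)]
    refine le_trans (le_of_eq ?_) h1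
    push_cast
    have e : (p : ℝ) ^ k = p * (p : ℝ) ^ (k - 1) := by
      rw [← pow_succ']
      congr 1
      omega
    rw [e]
    field_simp
    try ring
  | coprime a b ha hb hab iha ihb =>
    have ha0 : a ≠ 0 := by omega
    have hb0 : b ≠ 0 := by omega
    have e : h (a * b) = h a * h b := by
      unfold h
      have := Nat.Coprime.sum_divisors_mul hab
      have h2 : (∑ d ∈ (a * b).divisors, (d : ℝ)) = (∑ d ∈ a.divisors, (d : ℝ)) * ∑ d ∈ b.divisors, (d : ℝ) := by
        rw [← Nat.cast_sum, ← Nat.cast_sum, ← Nat.cast_sum, this, Nat.cast_mul]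
      rw [h2]
      push_cast
      field_simp
    rw [e, Nat.Coprime.primeFactors_mul hab, Finset.prod_union (Nat.Coprime.disjoint_primeFactors hab)]
    apply mul_le_mul (iha ha0) (ihb hb0)
    · exact Finset.prod_nonneg (fun p _ => by positivity)
    · unfold h; positivity

/-- `H(n) ≤ 2 h(n)`. -/
theorem H_le (n : ℕ) (hn : n ≠ 0) : H n ≤ 2 * h n := by
  have h1 := prod_one_sub_sq n.primeFactors (fun p hp => (Nat.prime_of_mem_primeFactors hp).two_le)
  have h2 := prod_le_h n hn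
  have e : H n * ∏ p ∈ n.primeFactors, (1 - 1 / (p : ℝ) ^ 2) = ∏ p ∈ n.primeFactors, (1 + 1 / (p : ℝ)) := by
    unfold H
    rw [← Finset.prod_mul_distrib]
    apply Finset.prod_congr rfl
    intro p hp
    have hp' : (2 : ℝ) ≤ p := by exact_mod_cast (Nat.prime_of_mem_primeFactors hp).two_le
    have : (p : ℝ) - 1 ≠ 0 := by linarith
    field_simp
    ring
  have h3 : 0 ≤ H n := Finset.prod_nonneg (fun p hp => (factor_pos (Nat.prime_of_mem_primeFactors hp)).le)
  nlinarith

theorem H_mono {a c : ℕ} (hc : c ≠ 0) (hac : a ∣ c) : H a ≤ H c := by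
  unfold H
  rw [← Finset.prod_sdiff (Nat.primeFactors_mono hac hc)]
  have h1 : 1 ≤ ∏ p ∈ c.primeFactors \ a.primeFactors, (p : ℝ) / ((p : ℝ) - 1) := by
    have := Finset.prod_le_prod (s := c.primeFactors \ a.primeFactors) (f := fun _ => (1 : ℝ))
      (g := fun p : ℕ => (p : ℝ) / ((p : ℝ) - 1)) (fun _ _ => zero_le_one)
      (fun p hp => factor_ge_one (Nat.prime_of_mem_primeFactors (Finset.mem_sdiff.mp hp).1))
    simpa using this
  have h2 : 0 ≤ ∏ p ∈ a.primeFactors, (p : ℝ) / ((p : ℝ) - 1) :=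
    Finset.prod_nonneg (fun p hp => (factor_pos (Nat.prime_of_mem_primeFactors hp)).le)
  nlinarith

theorem ond_iff (n : ℕ) : OddNonDeficient n ↔ Odd n ∧ 2 ≤ h n := by
  unfold OddNonDeficient h
  constructor
  · rintro ⟨h1, h2⟩
    refine ⟨h1, ?_⟩
    have hn : (0 : ℝ) < n := by exact_mod_cast h1.pos
    rw [le_div_iff₀ hn, ← Nat.cast_sum]
    exact_mod_cast h2
  · rintro ⟨h1, h2⟩
    refine ⟨h1, ?_⟩
    have hn : (0 : ℝ) < n := by exact_mod_cast h1.pos
    rw [le_div_iff₀ hn, ← Nat.cast_sum] at h2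
    exact_mod_cast h2

theorem ond_mul {m n : ℕ} (hm : Odd m) (hn : OddNonDeficient n) : OddNonDeficient (m * n) := by
  refine ⟨hm.mul hn.1, ?_⟩
  have hm0 : 0 < m := hm.pos
  have hn0 : 0 < n := hn.1.pos
  have hsub : n.divisors.image (fun d => m * d) ⊆ (m * n).divisors := by
    intro d hd
    simp only [Finset.mem_image, Nat.mem_divisors] at hd
    obtain ⟨e, ⟨he, _⟩, rfl⟩ := hd
    rw [Nat.mem_divisors]
    exact ⟨Nat.mul_dvd_mul_left m he, by positivity⟩
  have h1 := Finset.sum_le_sum_of_subset (f := fun d : ℕ => d) hsub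
  rw [Finset.sum_image (by intro x _ y _ hxy; exact Nat.eq_of_mul_eq_mul_left hm0 hxy),
    ← Finset.mul_sum] at h1
  have h2 := hn.2
  calc 2 * (m * n) = m * (2 * n) := by ring
    _ ≤ m * ∑ d ∈ n.divisors, d := Nat.mul_le_mul_left m h2
    _ ≤ _ := h1

theorem one_add_sum_le (t : Finset ℕ) :
    1 + ∑ p ∈ t, 1 / (p : ℝ) ≤ ∏ p ∈ t, (1 + 1 / (p : ℝ)) := by
  classical
  induction t using Finset.induction_on with
  | empty => simp
  | insert a t ha ih =>
    rw [Finset.sum_insert ha, Finset.prod_insert ha]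
    have h1 : (0 : ℝ) ≤ 1 / (a : ℝ) := by positivity
    have h2 : (0 : ℝ) ≤ ∑ p ∈ t, 1 / (p : ℝ) := Finset.sum_nonneg (fun p _ => by positivity)
    nlinarith

/-- There are odd non-deficient numbers with `H` arbitrarily large. -/
theorem exists_large (C : ℝ) : ∃ n, OddNonDeficient n ∧ C < H n := by
  set C' : ℝ := max C 4 with hC'
  -- divergence of the sum of the reciprocals of the primes
  have hdiv := Nat.Primes.not_summable_one_div
  have hnn : ∀ p : Nat.Primes, (0 : ℝ) ≤ 1 / (p : ℝ) := fun p => by positivity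
  have : ∃ s : Finset Nat.Primes, C' + 1 < ∑ p ∈ s, 1 / ((p : ℕ) : ℝ) := by
    by_contra hcon
    push Not at hcon
    exact hdiv (summable_of_sum_le hnn hcon)
  obtain ⟨s, hs⟩ := this
  set t : Finset ℕ := (s.image (fun p : Nat.Primes => (p : ℕ))).erase 2 with ht
  have htp : ∀ p ∈ t, p.Prime := by
    intro p hp
    rw [ht, Finset.mem_erase, Finset.mem_image] at hp
    obtain ⟨_, q, _, rfl⟩ := hp
    exact q.2
  have ht2 : ∀ p ∈ t, p ≠ 2 := by
    intro p hp
    rw [ht, Finset.mem_erase] at hp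
    exact hp.1
  have hsum : C' < ∑ p ∈ t, 1 / (p : ℝ) := by
    have e1 : ∑ p ∈ s, 1 / ((p : ℕ) : ℝ) = ∑ p ∈ s.image (fun p : Nat.Primes => (p : ℕ)), 1 / (p : ℝ) := by
      rw [Finset.sum_image]
      intro x _ y _ hxy
      exact Subtype.ext hxy
    have e2 : ∑ p ∈ s.image (fun p : Nat.Primes => (p : ℕ)), 1 / (p : ℝ) ≤ 1 / 2 + ∑ p ∈ t, 1 / (p : ℝ) := by
      by_cases h2 : 2 ∈ s.image (fun p : Nat.Primes => (p : ℕ))
      · rw [← Finset.add_sum_erase _ _ h2]
        norm_num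
        exact le_rfl
      · rw [ht, Finset.erase_eq_of_notMem h2]
        linarith
    linarith
  set n := ∏ p ∈ t, p with hn
  have hn0 : n ≠ 0 := Finset.prod_ne_zero_iff.mpr (fun p hp => (htp p hp).ne_zero)
  have hodd : Odd n := by
    rw [hn]
    apply Finset.prod_induction _ Odd (fun a b ha hb => ha.mul hb) odd_one
    intro p hp
    exact (htp p hp).odd_of_ne_two (ht2 p hp)
  have hpf : n.primeFactors = t := by
    rw [hn]
    exact Nat.primeFactors_prod htp
  have hH : C' < H n := by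
    unfold H
    rw [hpf]
    have h1 : 1 + ∑ p ∈ t, 1 / (p : ℝ) ≤ ∏ p ∈ t, (1 + 1 / (p : ℝ)) := by
      exact one_add_sum_le t
    have h2 : ∏ p ∈ t, (1 + 1 / (p : ℝ)) ≤ ∏ p ∈ t, (p : ℝ) / ((p : ℝ) - 1) := by
      apply Finset.prod_le_prod
      · intro p _
        positivity
      · intro p hp
        have hp' : (2 : ℝ) ≤ p := by exact_mod_cast (htp p hp).two_le
        rw [le_div_iff₀ (by linarith)]
        field_simp
        nlinarith
    linarith
  refine ⟨n, ?_, lt_of_le_of_lt (le_max_left _ _) hH⟩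
  rw [ond_iff]
  refine ⟨hodd, ?_⟩
  have := H_le n hn0
  have h4 : (4 : ℝ) ≤ C' := le_max_right _ _
  linarith

theorem g_pos {n : ℕ} (hn : n ≠ 0) (hH : 2 < H n) : 0 < g n := by
  unfold g
  have : (0 : ℝ) < n := by exact_mod_cast Nat.pos_of_ne_zero hn
  have : 0 < Real.sqrt n := Real.sqrt_pos.mpr this
  have : 0 < H n - 2 := by linarith
  positivity

/-- `g` is unbounded on the odd non-deficient numbers. -/
theorem g_unbounded (C : ℝ) : ∃ n, OddNonDeficient n ∧ C < g n := by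
  obtain ⟨n, hn, hH⟩ := exists_large (max C 0 + 2)
  refine ⟨n, hn, ?_⟩
  unfold g
  have h1 : (1 : ℝ) ≤ n := by exact_mod_cast hn.1.pos
  have h2 : 1 ≤ Real.sqrt n := by rw [Real.one_le_sqrt]; exact h1
  have h3 : C ≤ max C 0 := le_max_left _ _
  have h4 : 0 ≤ max C 0 := le_max_right _ _
  nlinarith

theorem B1_infinite : B1.Infinite := by
  rw [Set.infinite_iff_exists_gt]
  intro N
  obtain ⟨M, hM⟩ : ∃ M : ℝ, ∀ k ≤ N, g k ≤ M := by
    refine ⟨∑ k ∈ Finset.range (N + 1), |g k|, ?_⟩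
    intro k hk
    refine le_trans (le_abs_self _) ?_
    exact Finset.single_le_sum (f := fun k => |g k|) (fun i _ => abs_nonneg _) (Finset.mem_range.mpr (by omega))
  obtain ⟨n, hn, hgn⟩ := g_unbounded M
  classical
  have hex : ∃ n, OddNonDeficient n ∧ M < g n := ⟨n, hn, hgn⟩
  refine ⟨Nat.find hex, ⟨(Nat.find_spec hex).1, ?_⟩, ?_⟩
  · intro k hk hlt
    have := Nat.find_min hex hlt
    have h2 : ¬ M < g k := fun hc => this ⟨hk, hc⟩
    have h3 := (Nat.find_spec hex).2
    linarith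
  · by_contra hcon
    push Not at hcon
    have := hM _ hcon
    have h3 := (Nat.find_spec hex).2
    linarith

/-- Along `B_1` the function `H` tends to infinity. -/
theorem H_large (n' : ℕ) (hn' : OddNonDeficient n') (hH' : 2 < H n') (c : ℕ) (hc : c ∈ B1) (hlt : n' < c) :
    (H n' - 2) / 2 ≤ H c - 2 := by
  obtain ⟨hc1, hc2⟩ := hc
  have hn0 : 0 < n' := hn'.1.pos
  -- the largest odd multiple below c
  obtain ⟨m, hm, hm1, hm2⟩ : ∃ m, Odd m ∧ m * n' < c ∧ c ≤ (m + 2) * n' := by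
    have hq1 : (c - 1) / n' * n' ≤ c - 1 := Nat.div_mul_le_self _ _
    have hq2 : c - 1 < ((c - 1) / n' + 1) * n' := by
      have := Nat.lt_div_mul_add (a := c - 1) hn0
      nlinarith
    have hq3 : 1 ≤ (c - 1) / n' := by
      rw [Nat.le_div_iff_mul_le hn0]
      omega
    rcases Nat.even_or_odd ((c - 1) / n') with he | ho
    · have h2 : 2 ≤ (c - 1) / n' := by
        rcases he with ⟨r, hr⟩
        omega
      refine ⟨(c - 1) / n' - 1, ?_, ?_, ?_⟩
      · obtain ⟨r, hr⟩ := he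
        exact ⟨r - 1, by omega⟩
      · have : ((c - 1) / n' - 1) * n' ≤ (c - 1) / n' * n' := Nat.mul_le_mul_right _ (by omega)
        omega
      · have e : (c - 1) / n' - 1 + 2 = (c - 1) / n' + 1 := by omega
        rw [e]
        omega
    · refine ⟨(c - 1) / n', ho, by omega, ?_⟩
      have : ((c - 1) / n' + 2) * n' = ((c - 1) / n' + 1) * n' + n' := by ring
      omega
  have hrec := hc2 (m * n') (ond_mul hm hn') hm1
  have hm0 : 1 ≤ m := hm.pos
  have hHm : H n' ≤ H (m * n') := H_mono (by positivity) (Dvd.intro_left m rfl)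
  have hc3 : (c : ℝ) ≤ 4 * ((m * n' : ℕ) : ℝ) := by
    have : c ≤ 4 * (m * n') := by nlinarith
    exact_mod_cast this
  have hs : Real.sqrt c ≤ 2 * Real.sqrt ((m * n' : ℕ) : ℝ) := by
    have : Real.sqrt c ≤ Real.sqrt (2 ^ 2 * ((m * n' : ℕ) : ℝ)) := Real.sqrt_le_sqrt (by linarith)
    rw [Real.sqrt_mul (by norm_num), Real.sqrt_sq (by norm_num)] at this
    exact this
  have hspos : 0 < Real.sqrt ((m * n' : ℕ) : ℝ) := by
    apply Real.sqrt_pos.mpr
    exact_mod_cast (by positivity : 0 < m * n')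
  unfold g at hrec
  have hcs : 0 < Real.sqrt (c : ℝ) := by
    apply Real.sqrt_pos.mpr
    exact_mod_cast hc1.1.pos
  have hpos : 0 < H c - 2 := by
    by_contra hcon
    push Not at hcon
    have h1 : (H c - 2) * Real.sqrt c ≤ 0 := mul_nonpos_of_nonpos_of_nonneg hcon hcs.le
    have h2 : 0 < (H (m * n') - 2) * Real.sqrt ((m * n' : ℕ) : ℝ) := by
      apply mul_pos _ hspos
      linarith
    linarith
  have h5 : (H n' - 2) * Real.sqrt ((m * n' : ℕ) : ℝ) ≤ (H (m * n') - 2) * Real.sqrt ((m * n' : ℕ) : ℝ) := by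
    apply mul_le_mul_of_nonneg_right _ hspos.le
    linarith
  have h6 : (H c - 2) * Real.sqrt c ≤ (H c - 2) * (2 * Real.sqrt ((m * n' : ℕ) : ℝ)) :=
    mul_le_mul_of_nonneg_left hs hpos.le
  have h7 : (H n' - 2) * Real.sqrt ((m * n' : ℕ) : ℝ) ≤ (2 * (H c - 2)) * Real.sqrt ((m * n' : ℕ) : ℝ) := by
    linarith
  have h8 := le_of_mul_le_mul_right h7 hspos
  linarith

/-- Along `B_1` the abundancy is unbounded, on every tail. -/
theorem h_large (C : ℝ) : ∃ N, ∀ c ∈ B1, N < c → C < h c := by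
  obtain ⟨n', hn', hH'⟩ := exists_large (max (4 * C) 2)
  refine ⟨n', fun c hc hlt => ?_⟩
  have h1 : 4 * C ≤ max (4 * C) 2 := le_max_left _ _
  have h2 : (2 : ℝ) ≤ max (4 * C) 2 := le_max_right _ _
  have h3 := H_large n' hn' (by linarith) c hc hlt
  have h4 := H_le c hc.1.1.pos.ne'
  linarith

/-- `B_1` is infinite, and there are infinitely many indices `j` at which the abundancy rises
along `B_1`. -/
theorem result : B1.Infinite ∧ {j : ℕ | h (b j) < h (b (j + 1))}.Infinite := by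
  refine ⟨B1_infinite, ?_⟩
  intro hfin
  have hinf : (Set.ofPred (fun n => n ∈ B1)).Infinite := B1_infinite
  have hmono : StrictMono b := Nat.nth_strictMono hinf
  have hmem : ∀ j, b j ∈ B1 := fun j => Nat.nth_mem_of_infinite hinf j
  obtain ⟨j0, hj0⟩ := hfin.bddAbove
  have hstep : ∀ j, j0 < j → h (b (j + 1)) ≤ h (b j) := by
    intro j hj
    by_contra hcon
    push Not at hcon
    have := hj0 hcon
    omega
  have hbd : ∀ i, h (b (j0 + 1 + i)) ≤ h (b (j0 + 1)) := by
    intro i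
    induction i with
    | zero => exact le_rfl
    | succ i ih => exact le_trans (hstep (j0 + 1 + i) (by omega)) ih
  obtain ⟨N, hN⟩ := h_large (h (b (j0 + 1)))
  have h1 : N < b (j0 + 1 + N) := by
    have := hmono.id_le (j0 + 1 + N)
    simp only [id] at this
    omega
  have h2 := hN _ (hmem _) h1
  have h3 := hbd N
  linarith

end Pool.Agent.Results.MP_04e67f_nt.RiseInfinite
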